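import Pool.Agent.Helper46.NU.Names

namespace NU.PkEX1

open Pool.Agent.Helper97.Ku
open NU

universe u

variable {L : Type u} [CompleteBooleanAlgebra L]

theorem ext_iff {φ ψ : BSet L → L} (h : BSet.Ext φ) (k : BSet.Ext ψ) :
    BSet.Ext (fun x => iffV (φ x) (ψ x)) :=
  BSet.Ext.inf (BSet.Ext.himp h k) (BSet.Ext.himp k h)

theorem ext_pr1 (a b : BSet L) : BSet.Ext (fun x => prV x a b) :=
  BSet.Ext.iInf fun t => ext_iff (BSet.Ext.mem_right t) (BSet.Ext.const _)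

theorem ext_pr2 (z b : BSet L) : BSet.Ext (fun x => prV z x b) :=
  BSet.Ext.iInf fun t => ext_iff (BSet.Ext.const _) (BSet.Ext.sup
    (BSet.Ext.iInf fun s => ext_iff (BSet.Ext.const _) (BSet.Ext.eq_right s))
    (BSet.Ext.iInf fun s => ext_iff (BSet.Ext.const _)
      (BSet.Ext.sup (BSet.Ext.eq_right s) (BSet.Ext.const _))))

theorem ext_pr3 (z a : BSet L) : BSet.Ext (fun x => prV z a x) :=
  BSet.Ext.iInf fun t => ext_iff (BSet.Ext.const _) (BSet.Ext.sup
    (BSet.Ext.const _)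
    (BSet.Ext.iInf fun s => ext_iff (BSet.Ext.const _)
      (BSet.Ext.sup (BSet.Ext.const _) (BSet.Ext.eq_right s))))

theorem ex1 : G_EX1 := by
  intro L _
  refine ⟨?_, ?_, ?_, ?_, ?_⟩
  · intro a
    exact ⟨BSet.Ext.iInf fun t => BSet.Ext.himp (BSet.Ext.mem_right t) (BSet.Ext.const _),
      BSet.Ext.iInf fun t => BSet.Ext.himp (BSet.Ext.const _) (BSet.Ext.mem_right t)⟩
  · intro f a
    exact ⟨BSet.Ext.iSup fun z => BSet.Ext.inf (BSet.Ext.mem_right z) (BSet.Ext.const _),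
      BSet.Ext.iSup fun z => BSet.Ext.inf (BSet.Ext.const _) (ext_pr2 z a),
      BSet.Ext.iSup fun z => BSet.Ext.inf (BSet.Ext.const _) (ext_pr3 z a)⟩
  · intro a
    exact ⟨BSet.Ext.inf (BSet.Ext.mem_right a) (BSet.Ext.iInf fun m =>
        BSet.Ext.himp (BSet.Ext.mem_right m) (BSet.Ext.const _)),
      BSet.Ext.inf (BSet.Ext.mem_left a) (BSet.Ext.iInf fun m =>
        BSet.Ext.himp (BSet.Ext.const _) (BSet.Ext.sup (BSet.Ext.mem_right m)
          (BSet.Ext.eq_right m)))⟩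
  · intro a b
    exact ⟨BSet.Ext.iInf fun m => BSet.Ext.himp (BSet.Ext.mem_right m) (BSet.Ext.const _),
      BSet.Ext.iInf fun m => BSet.Ext.himp (BSet.Ext.const _)
        (ext_iff (BSet.Ext.mem_right m) (BSet.Ext.const _)),
      BSet.Ext.iInf fun m => BSet.Ext.himp (BSet.Ext.const _)
        (ext_iff (BSet.Ext.const _) (BSet.Ext.mem_right m))⟩
  · intro a
    exact ⟨BSet.Ext.iInf fun m => ext_iff (BSet.Ext.mem_right m) (BSet.Ext.const _),
      BSet.Ext.iInf fun m => ext_iff (BSet.Ext.const _) (BSet.Ext.sup (BSet.Ext.mem_right m)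
        (BSet.Ext.eq_right m))⟩

end NU.PkEX1
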